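import Pool.Agent.K3h61.CA.Stm

/-!
# Clock auctions (MP_9cf523_lc): brick A1, one step of the region structure
-/

namespace K3h18.CA

open Finset

/-- `exp (-ε) ≤ 1 - ε (1 - ε)` for `0 < ε` -/
theorem exp_bd {ε : ℝ} (h0 : 0 < ε) : Real.exp (-ε) ≤ 1 - ε * (1 - ε) := by
  have h1 : 1 + ε ≤ Real.exp ε := by
    have := Real.add_one_le_exp ε
    linarith
  have h2 : Real.exp (-ε) = (Real.exp ε)⁻¹ := Real.exp_neg ε
  rw [h2]
  have h3 : (Real.exp ε)⁻¹ ≤ (1 + ε)⁻¹ := inv_anti₀ (by linarith) h1
  refine h3.trans ?_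
  rw [inv_le_iff_one_le_mul₀ (by linarith)]
  nlinarith [pow_pos h0 3]

section one
variable {N : Type} [Fintype N] [DecidableEq N]

/-- the set of points picked by `f` -/
def pick {n : ℕ} {R : Finset N} (e : Fin n × Fin n ≃ R) (f : Fin n → Fin n) : Finset N :=
  univ.image (fun y : Fin n => (e (y, f y) : N))

theorem pick_inj {n : ℕ} {R : Finset N} (e : Fin n × Fin n ≃ R) (f : Fin n → Fin n) :
    Function.Injective (fun y : Fin n => (e (y, f y) : N)) := by
  intro y y' h
  have h1 : e (y, f y) = e (y', f y') := Subtype.ext h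
  have h2 := e.injective h1
  exact (Prod.ext_iff.1 h2).1

theorem pick_card {n : ℕ} {R : Finset N} (e : Fin n × Fin n ≃ R) (f : Fin n → Fin n) :
    (pick e f).card = n := by
  unfold pick
  rw [card_image_of_injective _ (pick_inj e f)]
  simp

theorem pick_sub {n : ℕ} {R : Finset N} (e : Fin n × Fin n ≃ R) (f : Fin n → Fin n) :
    pick e f ⊆ R := by
  intro z hz
  unfold pick at hz
  rw [mem_image] at hz
  obtain ⟨y, -, rfl⟩ := hz
  exact (e (y, f y)).2

/-- number of picked points in `Z` -/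
theorem pick_inter {n : ℕ} {R : Finset N} (e : Fin n × Fin n ≃ R) (f : Fin n → Fin n)
    (Z : Finset N) :
    (Z ∩ pick e f).card = ∑ y : Fin n, if (e (y, f y) : N) ∈ Z then 1 else 0 := by
  classical
  have h1 : Z ∩ pick e f = (univ.filter (fun y : Fin n => (e (y, f y) : N) ∈ Z)).image
      (fun y : Fin n => (e (y, f y) : N)) := by
    ext z
    simp only [pick, mem_inter, mem_image, mem_univ, true_and, mem_filter]
    constructor
    · rintro ⟨hz, y, rfl⟩
      exact ⟨y, hz, rfl⟩
    · rintro ⟨y, hy, rfl⟩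
      exact ⟨hy, y, rfl⟩
  rw [h1, card_image_of_injective _ (pick_inj e f), card_filter]

/-- the whole number of points of `Z` in the region -/
theorem sum_inter {n : ℕ} {R : Finset N} (e : Fin n × Fin n ≃ R) (Z : Finset N) :
    (Z ∩ R).card = ∑ y : Fin n, ∑ w : Fin n, if (e (y, w) : N) ∈ Z then 1 else 0 := by
  classical
  have h1 : (Z ∩ R) = (univ.filter (fun p : Fin n × Fin n => (e p : N) ∈ Z)).image
      (fun p : Fin n × Fin n => (e p : N)) := by
    ext z
    simp only [mem_inter, mem_image, mem_univ, true_and, mem_filter]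
    constructor
    · rintro ⟨hz, hR⟩
      refine ⟨e.symm ⟨z, hR⟩, ?_, ?_⟩ <;> simp [hz]
    · rintro ⟨p, hp, rfl⟩
      exact ⟨hp, (e p).2⟩
  have hinj : Function.Injective (fun p : Fin n × Fin n => (e p : N)) := by
    intro p q h
    exact e.injective (Subtype.ext h)
  rw [h1, card_image_of_injective _ hinj, card_filter, Fintype.sum_prod_type]

/-- the exponential moment -/
theorem expmom {n : ℕ} (hn : 0 < n) {R : Finset N} (e : Fin n × Fin n ≃ R) (Z : Finset N)
    {ε : ℝ} (h0 : 0 < ε) :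
    ∑ f : Fin n → Fin n, Real.exp (-(ε * ((Z ∩ pick e f).card : ℝ))) ≤
      (n : ℝ) ^ n * Real.exp (-(ε * (1 - ε) * ((Z ∩ R).card : ℝ) / n)) := by
  classical
  have hn' : (0 : ℝ) < n := by exact_mod_cast hn
  set g : Fin n → Fin n → ℝ := fun y w => Real.exp (-(ε * (if (e (y, w) : N) ∈ Z then 1 else 0)))
    with hg
  have h1 : ∀ f : Fin n → Fin n, Real.exp (-(ε * ((Z ∩ pick e f).card : ℝ))) =
      ∏ y : Fin n, g y (f y) := by
    intro f
    rw [pick_inter, hg]
    simp only
    rw [← Real.exp_sum]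
    congr 1
    rw [sum_neg_distrib, ← mul_sum]
    push_cast
    rfl
  have h2 : ∑ f : Fin n → Fin n, Real.exp (-(ε * ((Z ∩ pick e f).card : ℝ))) =
      ∏ y : Fin n, ∑ w : Fin n, g y w := by
    rw [prod_univ_sum, Fintype.piFinset_univ]
    exact sum_congr rfl (fun f _ => h1 f)
  rw [h2]
  set my : Fin n → ℝ := fun y => ∑ w : Fin n, if (e (y, w) : N) ∈ Z then (1 : ℝ) else 0 with hmy
  have h3 : ∀ y : Fin n, ∑ w : Fin n, g y w ≤ n * Real.exp (-(ε * (1 - ε) * my y / n)) := by
    intro y
    have hmy0 : 0 ≤ my y := sum_nonneg (fun w _ => by split_ifs <;> norm_num)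
    have h4 : ∑ w : Fin n, g y w = n - my y * (1 - Real.exp (-ε)) := by
      have : ∀ w : Fin n, g y w = 1 - (if (e (y, w) : N) ∈ Z then (1 : ℝ) else 0) *
          (1 - Real.exp (-ε)) := by
        intro w
        rw [hg]
        simp only
        split_ifs <;> simp
      rw [sum_congr rfl (fun w _ => this w), sum_sub_distrib, ← sum_mul]
      simp [hmy]
    have h5 : (n : ℝ) - my y * (1 - Real.exp (-ε)) ≤ n * (1 + -(ε * (1 - ε) * my y / n)) := by
      have h6 := exp_bd h0
      have h7 : (n : ℝ) * (1 + -(ε * (1 - ε) * my y / n)) = n - my y * (ε * (1 - ε)) := by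
        field_simp
        ring
      rw [h7]
      have h8 : my y * (ε * (1 - ε)) ≤ my y * (1 - Real.exp (-ε)) :=
        mul_le_mul_of_nonneg_left (by linarith) hmy0
      linarith
    rw [h4]
    refine h5.trans (mul_le_mul_of_nonneg_left ?_ hn'.le)
    have := Real.add_one_le_exp (-(ε * (1 - ε) * my y / n))
    linarith
  have h9 : ∏ y : Fin n, ∑ w : Fin n, g y w ≤
      ∏ y : Fin n, ((n : ℝ) * Real.exp (-(ε * (1 - ε) * my y / n))) := by
    refine prod_le_prod (fun y _ => sum_nonneg (fun w _ => (Real.exp_pos _).le)) (fun y _ => h3 y)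
  refine h9.trans ?_
  rw [prod_mul_distrib, prod_const, card_univ, Fintype.card_fin, ← Real.exp_sum]
  refine le_of_eq ?_
  congr 2
  rw [sum_inter e Z, sum_neg_distrib, ← sum_div, ← mul_sum]
  push_cast
  rfl

open Classical in
/-- a single region is under-dense with small probability -/
theorem badcount {n : ℕ} (hn : 0 < n) {R : Finset N} (e : Fin n × Fin n ≃ R) (Z : Finset N)
    {ε M : ℝ} (h0 : 0 < ε) :
    ((univ.filter (fun f : Fin n → Fin n => ((Z ∩ pick e f).card : ℝ) <
        (1 - ε) * ((Z ∩ R).card : ℝ) / (n : ℝ) - ε * M)).card : ℝ) ≤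
      (n : ℝ) ^ n * Real.exp (-(ε ^ 2 * M)) := by
  set m : ℝ := ((Z ∩ R).card : ℝ) with hm
  set F := univ.filter (fun f : Fin n → Fin n => ((Z ∩ pick e f).card : ℝ) <
        (1 - ε) * m / (n : ℝ) - ε * M) with hF
  have h1 : (F.card : ℝ) * Real.exp (-(ε * ((1 - ε) * m / (n : ℝ) - ε * M))) ≤
      ∑ f : Fin n → Fin n, Real.exp (-(ε * ((Z ∩ pick e f).card : ℝ))) := by
    calc (F.card : ℝ) * Real.exp (-(ε * ((1 - ε) * m / (n : ℝ) - ε * M)))
        = ∑ f ∈ F, Real.exp (-(ε * ((1 - ε) * m / (n : ℝ) - ε * M))) := by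
          rw [sum_const, nsmul_eq_mul]
      _ ≤ ∑ f ∈ F, Real.exp (-(ε * ((Z ∩ pick e f).card : ℝ))) := by
          refine sum_le_sum (fun f hf => ?_)
          rw [hF, mem_filter] at hf
          apply Real.exp_le_exp.2
          have := mul_le_mul_of_nonneg_left hf.2.le h0.le
          linarith
      _ ≤ ∑ f : Fin n → Fin n, Real.exp (-(ε * ((Z ∩ pick e f).card : ℝ))) := by
          refine sum_le_sum_of_subset_of_nonneg (filter_subset _ _) (fun f _ _ =>
            (Real.exp_pos _).le)
  have h2 := h1.trans (expmom hn e Z h0)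
  have h3 : Real.exp (-(ε * ((1 - ε) * m / (n : ℝ) - ε * M))) =
      Real.exp (ε ^ 2 * M) * Real.exp (-(ε * (1 - ε) * m / n)) := by
    rw [← Real.exp_add]
    congr 1
    ring
  rw [h3, ← mul_assoc] at h2
  have h4 := le_of_mul_le_mul_right h2 (Real.exp_pos _)
  have h5 : Real.exp (-(ε ^ 2 * M)) = (Real.exp (ε ^ 2 * M))⁻¹ := Real.exp_neg _
  rw [h5, ← div_eq_mul_inv, le_div_iff₀ (Real.exp_pos _)]
  exact h4

end one

/-- brick A1 -/
theorem t_A1 : K3h61.CA.S_A1 := by
  classical
  intro N P H _ _ _ _ n R ε M hn h0 h1 hM hR hcard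
  have hn' : (0 : ℝ) < n := by exact_mod_cast hn
  -- the bijections
  let e : ∀ p : P, Fin n × Fin n ≃ R p := fun p =>
    finProdFinEquiv.trans (Finset.equivFinOfCardEq (hR p)).symm
  let bad : Finset N → (P × H) → (Fin n → Fin n) → Prop := fun Z q f =>
    ((Z ∩ pick (e q.1) f).card : ℝ) < (1 - ε) * ((Z ∩ R q.1).card : ℝ) / (n : ℝ) - ε * M
  let cnt : Finset N → ((P × H) → (Fin n → Fin n)) → ℕ := fun Z x =>
    (univ.filter (fun q : P × H => bad Z q (x q))).card
  -- the key claim
  have key : ∃ x : (P × H) → (Fin n → Fin n), ∀ Z : Finset N, cnt Z x ≤ Fintype.card N := by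
    by_contra hcon
    push Not at hcon
    set tot : ℝ := ((n : ℝ) ^ n) ^ (Fintype.card (P × H)) with htot
    have htot0 : 0 < tot := by positivity
    -- the moment for fixed `Z`
    have hZ : ∀ Z : Finset N, ∑ x : (P × H) → (Fin n → Fin n), (4 : ℝ) ^ (cnt Z x) ≤
        tot * Real.exp 1 := by
      intro Z
      have e1 : ∀ x : (P × H) → (Fin n → Fin n), (4 : ℝ) ^ (cnt Z x) =
          ∏ q : P × H, (if bad Z q (x q) then (4 : ℝ) else 1) := by
        intro x
        rw [prod_ite]
        simp [cnt]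
      have e2 : ∑ x : (P × H) → (Fin n → Fin n), (4 : ℝ) ^ (cnt Z x) =
          ∏ q : P × H, ∑ f : Fin n → Fin n, (if bad Z q f then (4 : ℝ) else 1) := by
        rw [prod_univ_sum, Fintype.piFinset_univ]
        exact sum_congr rfl (fun x _ => e1 x)
      have e3 : ∀ q : P × H, ∑ f : Fin n → Fin n, (if bad Z q f then (4 : ℝ) else 1) ≤
          (n : ℝ) ^ n * Real.exp (3 * Real.exp (-(ε ^ 2 * M))) := by
        intro q
        have e4 : ∀ f : Fin n → Fin n, (if bad Z q f then (4 : ℝ) else 1) =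
            1 + 3 * (if bad Z q f then (1 : ℝ) else 0) := by
          intro f
          split_ifs <;> norm_num
        rw [sum_congr rfl (fun f _ => e4 f), sum_add_distrib, ← mul_sum]
        have e5 : ∑ f : Fin n → Fin n, (if bad Z q f then (1 : ℝ) else 0) ≤
            (n : ℝ) ^ n * Real.exp (-(ε ^ 2 * M)) := by
          have := badcount hn (e q.1) Z (M := M) h0
          rw [card_filter] at this
          push_cast at this
          exact this
        have e6 : ∑ f : Fin n → Fin n, (1 : ℝ) = (n : ℝ) ^ n := by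
          simp [Fintype.card_fin]
        rw [e6]
        have e7 := Real.add_one_le_exp (3 * Real.exp (-(ε ^ 2 * M)))
        have hp : (0 : ℝ) < (n : ℝ) ^ n := by positivity
        nlinarith [mul_le_mul_of_nonneg_left e7 hp.le]
      rw [e2]
      calc ∏ q : P × H, ∑ f : Fin n → Fin n, (if bad Z q f then (4 : ℝ) else 1)
          ≤ ∏ q : P × H, ((n : ℝ) ^ n * Real.exp (3 * Real.exp (-(ε ^ 2 * M)))) := by
            refine prod_le_prod (fun q _ => sum_nonneg (fun f _ => ?_)) (fun q _ => e3 q)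
            split_ifs <;> norm_num
        _ = tot * Real.exp ((Fintype.card (P × H) : ℕ) * (3 * Real.exp (-(ε ^ 2 * M)))) := by
            rw [prod_const, card_univ, mul_pow, ← Real.exp_nat_mul]
        _ ≤ tot * Real.exp 1 := by
            refine mul_le_mul_of_nonneg_left (Real.exp_le_exp.2 ?_) htot0.le
            have : ((Fintype.card (P × H) : ℕ) : ℝ) * (3 * Real.exp (-(ε ^ 2 * M))) =
              3 * ((Fintype.card (P × H) : ℕ) : ℝ) * Real.exp (-(ε ^ 2 * M)) := by ring
            rw [this]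
            exact hcard
    -- summing over `Z`
    have hall : ∑ Z : Finset N, ∑ x : (P × H) → (Fin n → Fin n), (4 : ℝ) ^ (cnt Z x) ≤
        2 ^ (Fintype.card N) * (tot * Real.exp 1) := by
      calc ∑ Z : Finset N, ∑ x : (P × H) → (Fin n → Fin n), (4 : ℝ) ^ (cnt Z x)
          ≤ ∑ Z : Finset N, tot * Real.exp 1 := sum_le_sum (fun Z _ => hZ Z)
        _ = 2 ^ (Fintype.card N) * (tot * Real.exp 1) := by
            rw [sum_const, card_univ, Fintype.card_finset, nsmul_eq_mul]
            push_cast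
            ring
    have hlow : tot * 4 ^ (Fintype.card N + 1) ≤
        ∑ Z : Finset N, ∑ x : (P × H) → (Fin n → Fin n), (4 : ℝ) ^ (cnt Z x) := by
      rw [sum_comm]
      have c1 : ∀ x : (P × H) → (Fin n → Fin n), (4 : ℝ) ^ (Fintype.card N + 1) ≤
          ∑ Z : Finset N, (4 : ℝ) ^ (cnt Z x) := by
        intro x
        obtain ⟨Z, hZ'⟩ := hcon x
        have c2 : (4 : ℝ) ^ (Fintype.card N + 1) ≤ (4 : ℝ) ^ (cnt Z x) :=
          pow_le_pow_right₀ (by norm_num) hZ'
        refine c2.trans ?_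
        exact single_le_sum (f := fun Z : Finset N => (4 : ℝ) ^ (cnt Z x))
          (fun Z _ => by positivity) (mem_univ Z)
      calc tot * 4 ^ (Fintype.card N + 1)
          = ∑ x : (P × H) → (Fin n → Fin n), (4 : ℝ) ^ (Fintype.card N + 1) := by
            rw [sum_const, card_univ, nsmul_eq_mul, htot]
            congr 1
            rw [Fintype.card_fun, Fintype.card_fun, Fintype.card_fin]
            push_cast
            ring
        _ ≤ _ := sum_le_sum (fun x _ => c1 x)
    have hfin := hlow.trans hall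
    have he : Real.exp 1 < 4 := by
      have := Real.exp_one_lt_d9
      linarith
    have h24 : (2 : ℝ) ^ (Fintype.card N) ≤ 4 ^ (Fintype.card N) :=
      pow_le_pow_left₀ (by norm_num) (by norm_num) _
    have h4 : (0 : ℝ) < 4 ^ (Fintype.card N) := by positivity
    have hh : tot * 4 ^ (Fintype.card N + 1) = tot * (4 * 4 ^ (Fintype.card N)) := by
      rw [pow_succ]
      ring
    have hh2 : 2 ^ (Fintype.card N) * (tot * Real.exp 1) ≤
        4 ^ (Fintype.card N) * (tot * Real.exp 1) :=
      mul_le_mul_of_nonneg_right h24 (by positivity)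
    have hh3 : 4 ^ (Fintype.card N) * (tot * Real.exp 1) <
        4 ^ (Fintype.card N) * (tot * 4) :=
      mul_lt_mul_of_pos_left (mul_lt_mul_of_pos_left he htot0) h4
    have hh4 : (4 : ℝ) ^ (Fintype.card N) * (tot * 4) = tot * (4 * 4 ^ (Fintype.card N)) := by
      ring
    rw [hh] at hfin
    rw [hh4] at hh3
    exact absurd (hfin.trans hh2) (not_le.2 hh3)
  obtain ⟨x, hx⟩ := key
  refine ⟨fun q => pick (e q.1) (x q), fun q => pick_sub _ _, fun q => pick_card _ _, ?_⟩
  intro Z
  have := hx Z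
  rw [Nat.card_eq_fintype_card, Fintype.card_subtype]
  exact this

end K3h18.CA
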